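import Pool.Agent.W2helper35.QF.Stm

/-!
# Piece POW of project QF: a power of a semisimple representation is semisimple
-/

set_option autoImplicit false

namespace Pool.Agent.W2helper17.QF

open Module

theorem p_pow : Pool.Agent.W2helper35.QF.P_POW := by
  intro k _ Y _ _ S hS A _ _ J hJ
  let R : Subalgebra k (Module.End k Y) := Algebra.adjoin k S
  have hsmul : ∀ (r : R) (y : Y), r • y = (r : Module.End k Y) y := fun _ _ => rfl
  have hk : ∀ (c : k) (y : Y), (algebraMap k R c) • y = c • y := by
    intro c y
    rw [hsmul]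
    rfl
  -- stable subspaces are submodules
  have hst : ∀ U : Submodule k Y, (∀ s ∈ S, ∀ u ∈ U, s u ∈ U) →
      ∀ r : R, ∀ u ∈ U, (r : Module.End k Y) u ∈ U := by
    intro U hU r
    obtain ⟨r, hr⟩ := r
    induction hr using Algebra.adjoin_induction with
    | mem x hx => exact fun u hu => hU x hx u hu
    | algebraMap c => exact fun u hu => U.smul_mem c hu
    | add x y _ _ hx hy => exact fun u hu => U.add_mem (hx u hu) (hy u hu)
    | mul x y _ _ hx hy => exact fun u hu => hx _ (hy u hu)
  -- the same for powers
  have hst' : ∀ r : R, ∀ u ∈ J, (fun a => (r : Module.End k Y) (u a)) ∈ J := by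
    intro r
    obtain ⟨r, hr⟩ := r
    induction hr using Algebra.adjoin_induction with
    | mem x hx => exact fun u hu => hJ x hx u hu
    | algebraMap c => exact fun u hu => J.smul_mem c hu
    | add x y _ _ hx hy => exact fun u hu => J.add_mem (hx u hu) (hy u hu)
    | mul x y _ _ hx hy => exact fun u hu => hx _ (hy u hu)
  have hss : IsSemisimpleModule R Y := by
    rw [isSemisimpleModule_iff]
    refine ⟨fun U => ?_⟩
    let U₀ : Submodule k Y :=
      { carrier := U
        add_mem' := fun ha hb => U.add_mem ha hb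
        zero_mem' := U.zero_mem
        smul_mem' := fun c x hx => by rw [← hk]; exact U.smul_mem _ hx }
    obtain ⟨U', hU', hc⟩ := hS U₀ (fun s hs u hu =>
      U.smul_mem (⟨s, Algebra.subset_adjoin hs⟩ : R) hu)
    refine ⟨{ carrier := U'
              add_mem' := fun ha hb => U'.add_mem ha hb
              zero_mem' := U'.zero_mem
              smul_mem' := fun r x hx => hst U' hU' r x hx }, ?_⟩
    constructor
    · rw [Submodule.disjoint_def]
      intro x hx hx'
      exact (Submodule.disjoint_def.1 hc.disjoint) x hx hx'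
    · rw [codisjoint_iff, eq_top_iff]
      intro x _
      have hx : x ∈ U₀ ⊔ U' := by
        rw [hc.sup_eq_top]
        trivial
      obtain ⟨a, ha, b, hb, hab⟩ := Submodule.mem_sup.1 hx
      exact Submodule.mem_sup.2 ⟨a, ha, b, hb, hab⟩
  have hss' : IsSemisimpleModule R (A → Y) := inferInstance
  let J₁ : Submodule R (A → Y) :=
    { carrier := J
      add_mem' := fun ha hb => J.add_mem ha hb
      zero_mem' := J.zero_mem
      smul_mem' := fun r x hx => hst' r x hx }
  obtain ⟨J₂, hJ₂⟩ := exists_isCompl J₁
  let P : (A → Y) →ₗ[R] (A → Y) := J₁.subtype ∘ₗ Submodule.linearProjOfIsCompl J₁ J₂ hJ₂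
  refine ⟨{ toFun := P
            map_add' := P.map_add
            map_smul' := fun c x => ?_ }, fun u => ?_, fun u hu => ?_, fun s hs u => ?_⟩
  · have h1 : ∀ x : A → Y, c • x = (algebraMap k R c) • x := by
      intro x
      funext a
      exact (hk c (x a)).symm
    rw [h1, P.map_smul, RingHom.id_apply, ← h1]
  · exact (Submodule.linearProjOfIsCompl J₁ J₂ hJ₂ u).2
  · have h1 := Submodule.linearProjOfIsCompl_apply_left hJ₂ (⟨u, hu⟩ : J₁)
    exact congrArg Subtype.val h1
  · exact P.map_smul (⟨s, Algebra.subset_adjoin hs⟩ : R) u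

end Pool.Agent.W2helper17.QF
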